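import Mathlib

set_option autoImplicit false

/-!
# Inequalities between order automorphisms

A group `G` acts on a linear order `T` by strictly monotone maps; `Le a b` and `Lt a b` mean that
`a t ≤ b t`, respectively `a t < b t`, for all `t`.  These relations are invariant under
multiplication from both sides.
-/

namespace Pool.Agent.TH49.FC

/-- An action by strictly monotone maps. -/
structure Act {G T : Type*} [Group G] [LinearOrder T] (ρ : G → T → T) : Prop where
  mul : ∀ a b t, ρ (a * b) t = ρ a (ρ b t)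
  one : ∀ t, ρ 1 t = t
  mono : ∀ a, StrictMono (ρ a)

set_option linter.unusedSectionVars false

section
variable {G T : Type*} [Group G] [LinearOrder T]

def Le (ρ : G → T → T) (a b : G) : Prop := ∀ t, ρ a t ≤ ρ b t
def Lt (ρ : G → T → T) (a b : G) : Prop := ∀ t, ρ a t < ρ b t

variable {ρ : G → T → T}

theorem Le.rfl' {a : G} : Le ρ a a := fun _ => le_rfl
theorem Le.of_eq {a b : G} (h : a = b) : Le ρ a b := by rw [h]; exact Le.rfl'
theorem Lt.le {a b : G} (h : Lt ρ a b) : Le ρ a b := fun t => (h t).le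
theorem Le.tr {a b c : G} (h : Le ρ a b) (k : Le ρ b c) : Le ρ a c := fun t => (h t).trans (k t)
theorem Lt.tr {a b c : G} (h : Lt ρ a b) (k : Lt ρ b c) : Lt ρ a c := fun t => (h t).trans (k t)
theorem Le.tr_lt {a b c : G} (h : Le ρ a b) (k : Lt ρ b c) : Lt ρ a c :=
  fun t => lt_of_le_of_lt (h t) (k t)
theorem Lt.tr_le {a b c : G} (h : Lt ρ a b) (k : Le ρ b c) : Lt ρ a c :=
  fun t => lt_of_lt_of_le (h t) (k t)
theorem Lt.irrefl' [Nonempty T] {a : G} (h : Lt ρ a a) : False :=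
  lt_irrefl _ (h (Classical.arbitrary T))

variable (A : Act ρ)
include A

theorem Act.le_mul {a b c d : G} (h : Le ρ a b) (k : Le ρ c d) : Le ρ (a * c) (b * d) := by
  intro t
  rw [A.mul, A.mul]
  exact ((A.mono a).monotone (k t)).trans (h _)

theorem Act.lt_mul_le {a b c d : G} (h : Lt ρ a b) (k : Le ρ c d) : Lt ρ (a * c) (b * d) := by
  intro t
  rw [A.mul, A.mul]
  exact lt_of_le_of_lt ((A.mono a).monotone (k t)) (h _)

theorem Act.le_mul_lt {a b c d : G} (h : Le ρ a b) (k : Lt ρ c d) : Lt ρ (a * c) (b * d) := by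
  intro t
  rw [A.mul, A.mul]
  exact lt_of_lt_of_le ((A.mono a) (k t)) (h _)

theorem Act.le_left {a b : G} (c : G) (h : Le ρ a b) : Le ρ (c * a) (c * b) :=
  A.le_mul Le.rfl' h

theorem Act.le_right {a b : G} (c : G) (h : Le ρ a b) : Le ρ (a * c) (b * c) :=
  A.le_mul h Le.rfl'

theorem Act.lt_left {a b : G} (c : G) (h : Lt ρ a b) : Lt ρ (c * a) (c * b) :=
  A.le_mul_lt Le.rfl' h

theorem Act.lt_right {a b : G} (c : G) (h : Lt ρ a b) : Lt ρ (a * c) (b * c) :=
  A.lt_mul_le h Le.rfl'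

theorem Act.le_cancel {a b : G} (c : G) (h : Le ρ (c * a) (c * b)) : Le ρ a b := by
  have := A.le_left c⁻¹ h
  simpa using this

theorem Act.lt_cancel {a b : G} (c : G) (h : Lt ρ (c * a) (c * b)) : Lt ρ a b := by
  have := A.lt_left c⁻¹ h
  simpa using this

theorem Act.lt_cancel_right {a b : G} (c : G) (h : Lt ρ (a * c) (b * c)) : Lt ρ a b := by
  have := A.lt_right c⁻¹ h
  simpa using this

theorem Act.le_pow {a b : G} (h : Le ρ a b) (n : ℕ) : Le ρ (a ^ n) (b ^ n) := by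
  induction n with
  | zero => simpa using Le.rfl'
  | succ n ih => rw [pow_succ, pow_succ]; exact A.le_mul ih h

theorem Act.lt_pow {a b : G} (h : Lt ρ a b) {n : ℕ} (hn : 1 ≤ n) : Lt ρ (a ^ n) (b ^ n) := by
  induction n, hn using Nat.le_induction with
  | base => simpa using h
  | succ n _ ih => rw [pow_succ, pow_succ]; exact A.le_mul_lt ih.le h

theorem Act.one_le_pow {a : G} (h : Le ρ 1 a) (n : ℕ) : Le ρ 1 (a ^ n) := by
  have := A.le_pow h n
  rwa [one_pow] at this

theorem Act.one_le_zpow {a : G} (h : Le ρ 1 a) {n : ℤ} (hn : 0 ≤ n) : Le ρ 1 (a ^ n) := by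
  obtain ⟨m, rfl⟩ := Int.eq_ofNat_of_zero_le hn
  rw [zpow_natCast]; exact A.one_le_pow h m

theorem Act.inv_le_one {a : G} (h : Le ρ 1 a) : Le ρ a⁻¹ 1 := by
  have := A.le_left a⁻¹ h
  simpa using this

theorem Act.zpow_le_one {a : G} (h : Le ρ 1 a) {n : ℤ} (hn : n ≤ 0) : Le ρ (a ^ n) 1 := by
  have h1 := A.inv_le_one (A.one_le_zpow h (show 0 ≤ -n by omega))
  rwa [← zpow_neg, neg_neg] at h1

/-- A root of a nonnegative element is nonnegative. -/
theorem Act.one_le_of_zpow {w : G} {q : ℤ} (hq : 1 ≤ q) (h : Le ρ 1 (w ^ q)) : Le ρ 1 w := by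
  intro t
  rw [A.one]
  by_contra hcon
  rw [not_le] at hcon
  obtain ⟨m, rfl⟩ := Int.eq_ofNat_of_zero_le (show 0 ≤ q by omega)
  rw [zpow_natCast] at h
  have key : ∀ n : ℕ, 1 ≤ n → ρ (w ^ n) t < t := by
    intro n hn
    induction n, hn using Nat.le_induction with
    | base => simpa using hcon
    | succ n _ ih =>
      rw [pow_succ, A.mul]
      exact (A.mono _ hcon).trans ih
  have h1 := h t
  rw [A.one] at h1
  exact absurd (key m (by omega)) (not_lt.mpr h1)

/-- `χ` is at least `X ^ (N / D)` if `χ ^ q = X ^ k` with `N / D ≤ k / q`. -/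
theorem Act.ge_of_slope {X χ : G} (hc : Commute X χ) (hX : Le ρ 1 X) {k q : ℤ} (hq : 1 ≤ q)
    (h : χ ^ q = X ^ k) (N D : ℕ) (hN : (N : ℤ) * q ≤ k * D) : Le ρ (X ^ N) (χ ^ D) := by
  have h1 : (X ^ (-(N : ℤ)) * χ ^ (D : ℤ)) ^ q = X ^ (k * D - N * q) := by
    rw [((hc.zpow_left _).zpow_right _).mul_zpow, ← zpow_mul, ← zpow_mul, mul_comm (D : ℤ) q,
      zpow_mul χ, h, ← zpow_mul, ← zpow_add]
    congr 1; ring
  have h2 : Le ρ 1 (X ^ (-(N : ℤ)) * χ ^ (D : ℤ)) := by
    refine A.one_le_of_zpow hq ?_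
    rw [h1]
    exact A.one_le_zpow hX (by omega)
  have h3 := A.le_left (X ^ (N : ℤ)) h2
  rw [mul_one, ← mul_assoc, ← zpow_add, add_neg_cancel, zpow_zero, one_mul, zpow_natCast,
    zpow_natCast] at h3
  exact h3

/-- `w` is at most `e ^ (N / D)` if `w ^ q = e ^ k` with `k / q ≤ N / D`. -/
theorem Act.le_of_slope {e w : G} (hc : Commute e w) (he : Le ρ 1 e) {k q : ℤ} (hq : 1 ≤ q)
    (h : w ^ q = e ^ k) (N D : ℕ) (hN : k * D ≤ (N : ℤ) * q) : Le ρ (w ^ D) (e ^ N) := by
  have h1 : (e ^ (N : ℤ) * w ^ (-(D : ℤ))) ^ q = e ^ (N * q - k * D) := by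
    rw [((hc.zpow_left _).zpow_right _).mul_zpow, ← zpow_mul, ← zpow_mul, mul_comm (-(D : ℤ)) q,
      zpow_mul w, h, ← zpow_mul, ← zpow_add]
    congr 1; ring
  have h2 : Le ρ 1 (e ^ (N : ℤ) * w ^ (-(D : ℤ))) := by
    refine A.one_le_of_zpow hq ?_
    rw [h1]
    exact A.one_le_zpow he (by omega)
  have h3 := A.le_right (w ^ (D : ℤ)) h2
  rw [one_mul, mul_assoc, ← zpow_add, neg_add_cancel, zpow_zero, mul_one, zpow_natCast,
    zpow_natCast] at h3
  exact h3

/-- Euclid's algorithm for two commuting pairs. -/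
theorem Act.euclid {g : G} (hg : Lt ρ 1 g) : ∀ (n a b a' b' : ℕ), a + b + a' + b' ≤ n →
    a' * b = a * b' + 1 → ∀ χ ζ ε r : G, Commute χ ζ → Commute ε r →
    Le ρ (ζ ^ a) (χ ^ b) → Le ρ (ε ^ b') (r ^ a') → Lt ρ (χ * g) ε → Lt ρ (g * r) ζ →
    Le ρ (g ^ (a + a')) (χ * g) ∧ Le ρ (g ^ (b + b')) (g * r) := by
  intro n
  induction n with
  | zero => intro a b a' b' h; have : a' * b = 0 := by
              rw [show a' = 0 by omega, zero_mul]
            intro h2; omega
  | succ n ih =>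
    intro a b a' b' hn hd χ ζ ε r cχ cε h1 h2 h3 h4
    have hb : 1 ≤ b := by
      rcases Nat.eq_zero_or_pos b with h | h
      · rw [h] at hd; omega
      · exact h
    have ha' : 1 ≤ a' := by
      rcases Nat.eq_zero_or_pos a' with h | h
      · rw [h] at hd; omega
      · exact h
    have rg : Lt ρ r (g * r) := by
      have := A.lt_right r hg
      rwa [one_mul] at this
    have rζ : Lt ρ r ζ := rg.tr h4
    rcases Nat.lt_or_ge a b with hab | hab
    · rcases Nat.eq_zero_or_pos b' with hb' | hb'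
      · -- the base case
        subst hb'
        have h5 : a' * b = 1 := by omega
        have h6 : a' = 1 := Nat.eq_one_of_mul_eq_one_right h5
        have h7 : b = 1 := Nat.eq_one_of_mul_eq_one_left h5
        subst h6; subst h7
        have h8 : a = 0 := by omega
        subst h8
        rw [pow_zero, pow_one] at h1
        rw [pow_zero, pow_one] at h2
        constructor
        · have := A.le_right g h1
          simpa using this
        · have := A.le_left g h2
          simpa using this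
      · -- subtract the other way
        have hab' : a' ≤ b' := by
          by_contra hcon
          rw [not_le] at hcon
          have h5 : (b' + 1) * b ≤ a' * b := Nat.mul_le_mul_right b hcon
          have h6 : a * b' ≤ (b - 1) * b' := Nat.mul_le_mul_right b' (by omega)
          obtain ⟨k, rfl⟩ := Nat.exists_eq_add_of_le' hb
          simp only [Nat.add_sub_cancel] at h6
          nlinarith
        obtain ⟨b₁, rfl⟩ := Nat.exists_eq_add_of_le hab.le
        obtain ⟨b₁', rfl⟩ := Nat.exists_eq_add_of_le hab'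
        have hd' : a' * b₁ = a * b₁' + 1 := by
          have : a' * (a + b₁) = a * (a' + b₁') + 1 := hd
          nlinarith
        have cχ' : Commute χ (χ⁻¹ * ζ) := (Commute.refl χ).inv_right.mul_right cχ
        have cε' : Commute ε (ε⁻¹ * r) := (Commute.refl ε).inv_right.mul_right cε
        have e1 : Le ρ ((χ⁻¹ * ζ) ^ a) (χ ^ b₁) := by
          rw [cχ.inv_left.mul_pow]
          have := A.le_left (χ⁻¹ ^ a) h1
          refine this.tr (Le.of_eq ?_)
          rw [pow_add, inv_pow, inv_mul_cancel_left]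
        have e2 : Le ρ (ε ^ b₁') ((ε⁻¹ * r) ^ a') := by
          rw [cε.inv_left.mul_pow]
          have := A.le_left (ε⁻¹ ^ a') h2
          refine (Le.of_eq ?_).tr this
          rw [pow_add, inv_pow, inv_mul_cancel_left]
        have e3 : Lt ρ (g * (ε⁻¹ * r)) (χ⁻¹ * ζ) := by
          apply A.lt_cancel χ
          have k1 : Lt ρ (χ * (g * (ε⁻¹ * r))) r := by
            have := A.lt_right (ε⁻¹ * r) h3
            rwa [mul_inv_cancel_left, mul_assoc] at this
          rw [mul_inv_cancel_left]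
          exact k1.tr rζ
        obtain ⟨f1, f2⟩ := ih a b₁ a' b₁' (by omega) hd' χ (χ⁻¹ * ζ) ε (ε⁻¹ * r) cχ' cε' e1 e2
          h3 e3
        refine ⟨f1, ?_⟩
        have k1 : Le ρ (g ^ (a + a')) ε := f1.tr h3.le
        have k2 := A.le_mul f2 k1
        rw [← pow_add] at k2
        have k3 : g * (ε⁻¹ * r) * ε = g * r := by
          rw [mul_assoc, mul_assoc ε⁻¹, ← cε.eq, inv_mul_cancel_left]
        rw [k3] at k2
        refine (Le.of_eq ?_).tr k2
        congr 1; omega
    · have hab' : b' ≤ a' := by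
        by_contra hcon
        rw [not_le] at hcon
        have h5 : a' * b ≤ b' * a := Nat.mul_le_mul hcon.le hab
        nlinarith
      obtain ⟨a₁, rfl⟩ := Nat.exists_eq_add_of_le hab
      obtain ⟨a₁', rfl⟩ := Nat.exists_eq_add_of_le hab'
      have hd' : a₁' * b = a₁ * b' + 1 := by
        have : (b' + a₁') * b = (b + a₁) * b' + 1 := hd
        nlinarith
      have cχ' : Commute (ζ⁻¹ * χ) ζ := (Commute.refl ζ).inv_left.mul_left cχ
      have cε' : Commute (r⁻¹ * ε) r := (Commute.refl r).inv_left.mul_left cε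
      have e1 : Le ρ (ζ ^ a₁) ((ζ⁻¹ * χ) ^ b) := by
        rw [cχ.symm.inv_left.mul_pow]
        have := A.le_left (ζ⁻¹ ^ b) h1
        refine (Le.of_eq ?_).tr this
        rw [pow_add, inv_pow, inv_mul_cancel_left]
      have e2 : Le ρ ((r⁻¹ * ε) ^ b') (r ^ a₁') := by
        rw [cε.symm.inv_left.mul_pow]
        have := A.le_left (r⁻¹ ^ b') h2
        refine this.tr (Le.of_eq ?_)
        rw [pow_add, inv_pow, inv_mul_cancel_left]
      have e3 : Lt ρ (ζ⁻¹ * χ * g) (r⁻¹ * ε) := by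
        apply A.lt_cancel r
        have k1 : Lt ρ (r * (ζ⁻¹ * χ * g)) (χ * g) := by
          have := A.lt_right (ζ⁻¹ * χ * g) rζ
          have k2 : ζ * (ζ⁻¹ * χ * g) = χ * g := by group
          rwa [k2] at this
        rw [mul_inv_cancel_left]
        exact k1.tr h3
      obtain ⟨f1, f2⟩ := ih a₁ b a₁' b' (by omega) hd' (ζ⁻¹ * χ) ζ (r⁻¹ * ε) r cχ' cε' e1 e2
        e3 h4
      refine ⟨?_, f2⟩
      have k1 := A.le_mul (f2.tr h4.le) f1
      rw [← pow_add, mul_assoc ζ⁻¹, mul_inv_cancel_left] at k1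
      refine (Le.of_eq ?_).tr k1
      congr 1; omega

theorem Act.pow_comm_lt {e g : G} (h : Lt ρ (e * g) (g * e)) (n : ℕ) :
    Le ρ (e * g ^ n) (g ^ n * e) := by
  induction n with
  | zero => simpa using Le.rfl'
  | succ n ih =>
    have k1 := A.le_right g ih
    have k2 := A.le_left (g ^ n) h.le
    rw [pow_succ, ← mul_assoc]
    refine k1.tr ?_
    rw [mul_assoc, mul_assoc]
    exact k2

/-- From `χ g e g ≤ e ε`. -/
theorem Act.chi_lt {g e χ ε : G} (hg : Lt ρ 1 g) (cε : Commute e ε)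
    (d : Le ρ (χ * g * e * g) (e * ε)) : Lt ρ (χ * g) ε := by
  apply A.lt_cancel_right (e * g)
  have k1 : Lt ρ (e * ε) (ε * (e * g)) := by
    have := A.lt_left (ε * e) hg
    rw [mul_one, mul_assoc] at this
    rw [cε.eq]
    exact this
  rw [← mul_assoc]
  exact d.tr_lt k1

/-- The case where the slope `r` is at least the slope `s`. -/
theorem Act.contra_ge [Nonempty T] {g e X χ ε : G} (hg : Lt ρ 1 g) (cε : Commute e ε)
    (hX : Le ρ e X) {m k : ℕ} (hk : 1 ≤ k) (h1 : Le ρ (X ^ m) (χ ^ k)) (h2 : Le ρ (ε ^ k) (e ^ m))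
    (d : Le ρ (χ * g * e * g) (e * ε)) : False := by
  have k1 := A.chi_lt hg cε d
  have k2 : Lt ρ χ (χ * g) := by
    have := A.lt_left χ hg
    rwa [mul_one] at this
  have k3 := A.lt_pow (k2.tr k1) hk
  exact (((k3.tr_le h2).tr_le (A.le_pow hX m)).tr_le h1).irrefl'

/-- The case of slopes in the unit interval separated by `(p + p') / (q + q')`. -/
theorem Act.contra_lt [Nonempty T] {g e X χ ε : G} (hg : Lt ρ 1 g) (cχ : Commute X χ)
    (cε : Commute e ε) (hX : Le ρ e X) {p q p' q' : ℕ} (hp : p ≤ q) (hp' : p' ≤ q')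
    (hd : p' * q = p * q' + 1) (h1 : Le ρ (X ^ p) (χ ^ q)) (h2 : Le ρ (ε ^ q') (e ^ p'))
    (d : Le ρ (χ * g * e * g) (e * ε)) (f : Le ρ (e * g * e) (g ^ (2 * (q + q')))) : False := by
  have k1 := A.chi_lt hg cε d
  obtain ⟨b, rfl⟩ := Nat.exists_eq_add_of_le hp
  obtain ⟨b', rfl⟩ := Nat.exists_eq_add_of_le hp'
  have hd' : p' * b = p * b' + 1 := by
    have : p' * (p + b) = p * (p' + b') + 1 := hd
    nlinarith
  have c1 : Commute χ (χ⁻¹ * X) := (Commute.refl χ).inv_right.mul_right cχ.symm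
  have c2 : Commute ε (ε⁻¹ * e) := (Commute.refl ε).inv_right.mul_right cε.symm
  have e1 : Le ρ ((χ⁻¹ * X) ^ p) (χ ^ b) := by
    rw [cχ.symm.inv_left.mul_pow]
    have := A.le_left (χ⁻¹ ^ p) h1
    refine this.tr (Le.of_eq ?_)
    rw [pow_add, inv_pow, inv_mul_cancel_left]
  have e2 : Le ρ (ε ^ b') ((ε⁻¹ * e) ^ p') := by
    rw [cε.symm.inv_left.mul_pow]
    have := A.le_left (ε⁻¹ ^ p') h2
    refine (Le.of_eq ?_).tr this
    rw [pow_add, inv_pow, inv_mul_cancel_left]
  have e3 : Lt ρ (g * (ε⁻¹ * e)) (χ⁻¹ * X) := by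
    apply A.lt_cancel χ
    have k2 := A.lt_right (ε⁻¹ * e) k1
    have k3 : ε * (ε⁻¹ * e) = e := by group
    have k4 : χ * g * (ε⁻¹ * e) = χ * (g * (ε⁻¹ * e)) := by group
    rw [k3, k4] at k2
    rw [mul_inv_cancel_left]
    exact k2.tr_le hX
  obtain ⟨f1, f2⟩ := A.euclid hg _ p b p' b' le_rfl hd' χ (χ⁻¹ * X) ε (ε⁻¹ * e) c1 c2 e1 e2 k1 e3
  -- `g ^ Q < g e`
  have i1 : Lt ρ (g ^ (b + b') * g ^ (p + p')) (g * e) := by
    have := A.le_mul_lt f2 (f1.tr_lt k1)
    refine this.tr_le (Le.of_eq ?_)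
    rw [mul_assoc, ← c2.eq, mul_inv_cancel_left]
  rw [← pow_add] at i1
  set Q := b + b' + (p + p') with hQ
  -- `e < g ^ Q`
  have i2 : Lt ρ e (g ^ Q) := by
    have j1 := A.lt_right (g * e) i1
    have j2 := A.le_left g f
    have j3 : g * (e * g * e) = g * e * (g * e) := by group
    rw [j3] at j2
    have j4 := j1.tr_le j2
    apply A.lt_cancel (g ^ (Q + 1))
    refine (Le.of_eq ?_).tr_lt (j4.tr_le (Le.of_eq ?_))
    · rw [pow_succ, mul_assoc]
    · rw [← pow_succ', ← pow_add]; congr 1; omega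
  -- `ε < g ^ (P + 1)`
  have i3 : Lt ρ ε (g ^ (p + p' + 1)) := by
    apply A.lt_cancel (g ^ (b + b'))
    have j1 := A.le_right ε f2
    have j2 : g * (ε⁻¹ * e) * ε = g * e := by rw [mul_assoc, ← c2.eq, mul_inv_cancel_left]
    rw [j2] at j1
    refine (j1.tr_lt (A.lt_left g i2)).tr_le (Le.of_eq ?_)
    rw [← pow_succ', ← pow_add]; congr 1
  have i4 : Le ρ (g ^ (p + p') * e * g) (e * ε) :=
    (A.le_right g (A.le_right e f1)).tr d
  have i5 : Lt ρ (g ^ (p + p') * e) (e * g ^ (p + p')) := by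
    apply A.lt_cancel_right g
    refine (i4.tr_lt (A.lt_left e i3)).tr_le (Le.of_eq ?_)
    rw [pow_succ, mul_assoc]
  have i6 : Lt ρ (e * g) (g * e) := by
    apply A.lt_cancel (g ^ (p + p'))
    rw [← mul_assoc]
    have j1 := A.lt_right e i3
    rw [← cε.eq] at j1
    refine (i4.tr_lt j1).tr_le (Le.of_eq ?_)
    rw [pow_succ, mul_assoc]
  exact (i5.tr_le (A.pow_comm_lt i6 _)).irrefl'

/-- The case of slopes in `[m, m + 1]` separated by `m + (p + p') / (q + q')`. -/
theorem Act.contra_lt' [Nonempty T] {g e X χ ε : G} (hg : Lt ρ 1 g) (cχ : Commute X χ)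
    (cε : Commute e ε) (hX : Le ρ e X) (m : ℕ) {p q p' q' : ℕ} (hp : p ≤ q) (hp' : p' ≤ q')
    (hd : p' * q = p * q' + 1) (h1 : Le ρ (X ^ (m * q + p)) (χ ^ q))
    (h2 : Le ρ (ε ^ q') (e ^ (m * q' + p')))
    (d : Le ρ (χ * g * e * g) (e * ε)) (f : Le ρ (e * g * e) (g ^ (2 * (q + q')))) : False := by
  have c1 : Commute X (X⁻¹ ^ m * χ) := ((Commute.refl X).inv_right.pow_right m).mul_right cχ
  have c2 : Commute e (e⁻¹ ^ m * ε) := ((Commute.refl e).inv_right.pow_right m).mul_right cε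
  refine A.contra_lt (χ := X⁻¹ ^ m * χ) (ε := e⁻¹ ^ m * ε) hg c1 c2 hX hp hp' hd ?_ ?_ ?_ f
  · rw [(cχ.inv_left.pow_left m).mul_pow]
    have := A.le_left ((X⁻¹ ^ m) ^ q) h1
    refine (Le.of_eq ?_).tr this
    rw [pow_add, ← pow_mul, inv_pow, inv_mul_cancel_left]
  · rw [(cε.inv_left.pow_left m).mul_pow]
    have := A.le_left ((e⁻¹ ^ m) ^ q') h2
    refine this.tr (Le.of_eq ?_)
    rw [pow_add, ← pow_mul, inv_pow, inv_mul_cancel_left]
  · apply A.le_cancel (e ^ m)
    have k1 := A.le_right (X⁻¹ ^ m * χ * g * e * g) (A.le_pow hX m)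
    refine k1.tr ?_
    have k2 : X ^ m * (X⁻¹ ^ m * χ * g * e * g) = χ * g * e * g := by
      rw [inv_pow]; group
    rw [k2]
    refine d.tr (Le.of_eq ?_)
    have k3 : Commute (e ^ m) e := (Commute.refl e).pow_left m
    rw [← mul_assoc, k3.eq, mul_assoc, inv_pow, mul_inv_cancel_left]

end

end Pool.Agent.TH49.FC
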