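import Pool.Agent.W705.Borr

set_option autoImplicit false

/-!
# Order preserving actions of surgery groups of the five chain link: the core argument

`S` is a complete linear order and `x, y, c, e, g` are order automorphisms of `S`.
-/

namespace Pool.Agent.TH49.FC

open Pool.Agent.W705.Borr (ivt ivt')

variable {S : Type*} [CompleteLinearOrder S]

/-- The relations, in terms of inequalities.  `b = g x g⁻¹ = c⁻¹ x c`, `Y = c y c⁻¹ = e y e⁻¹`,
`b y = x Y`, `l = y⁻¹ g` commutes with `e`, and `x e` commutes with `g`. -/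
structure Sys (x y c e g b Y l : S ≃o S) : Prop where
  bg : ∀ v, b (g v) = g (x v)
  Yc : ∀ v, Y (c v) = c (y v)
  Ye : ∀ v, Y (e v) = e (y v)
  h : ∀ v, b (y v) = x (Y v)
  yl : ∀ v, y (l v) = g v
  el : ∀ v, e (l v) = l (e v)
  gxe : ∀ v, g (x (e v)) = x (e (g v))
  /-- slope of `x`: `a₁ ≥ 0` -/
  xu : ∀ v, v < x v → c (g v) ≤ v
  xd : ∀ v, x v < v → v ≤ c (g v)
  xf : ∀ v, x v = v → c (g v) = v
  /-- slope of `c`: `-1 ≤ a₂ < 0` -/
  cu : ∀ v, v < c v → v < b (y v) ∧ b (y v) ≤ c v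
  cd : ∀ v, c v < v → b (y v) < v ∧ c v ≤ b (y v)
  cf : ∀ v, c v = v → b (y v) = v
  /-- slope of `y`: `-1 ≤ a₃` -/
  yu : ∀ v, v < y v → c v ≤ e (y v)
  yd : ∀ v, y v < v → e (y v) ≤ c v
  yf : ∀ v, y v = v → c v = e v
  /-- slope of `e`: `a₄ ≤ -1` -/
  eu : ∀ v, v < e v → e v ≤ l v
  ed : ∀ v, e v < v → l v ≤ e v
  ef : ∀ v, e v = v → l v = v
  /-- slope of `g`: `a₅ ≤ -1` -/
  gu : ∀ v, v < g v → g v ≤ x (e v)
  gd : ∀ v, g v < v → x (e v) ≤ g v
  gf : ∀ v, g v = v → x (e v) = v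

theorem Sys.dual {x y c e g b Y l : S ≃o S} (h : Sys x y c e g b Y l) :
    Sys (S := Sᵒᵈ) x.dual y.dual c.dual e.dual g.dual b.dual Y.dual l.dual :=
  ⟨h.bg, h.Yc, h.Ye, h.h, h.yl, h.el, h.gxe, h.xd, h.xu, h.xf, h.cd, h.cu, h.cf, h.yd, h.yu, h.yf,
    h.ed, h.eu, h.ef, h.gd, h.gu, h.gf⟩

section
variable {x y c e g b Y l : S ≃o S}

/-- Points fixed by `g` are not moved up by `x`. -/
theorem step2u (h : Sys x y c e g b Y l) {t : S} (hg : g t = t) (hx : t < x t) : False := by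
  have h1 : x (e t) = t := h.gf t hg
  have h2 : e t < t := by rw [← x.lt_iff_lt, h1]; exact hx
  have h3 : c t ≤ t := by have := h.xu t hx; rwa [hg] at this
  have h4 : t < y t := by
    have h5 : l t < t := lt_of_le_of_lt (h.ed t h2) h2
    have h6 : y (l t) < y t := (y.lt_iff_lt).mpr h5
    rwa [h.yl, hg] at h6
  have h7 : t < b (y t) := by
    have h8 : b t = g (x t) := by have := h.bg t; rwa [hg] at this
    have h9 : t < g (x t) := by
      have := (g.lt_iff_lt).mpr hx; rwa [hg] at this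
    have h10 : b t < b (y t) := (b.lt_iff_lt).mpr h4
    rw [h8] at h10
    exact h9.trans h10
  rcases lt_or_eq_of_le h3 with h11 | h11
  · exact absurd (h7.trans (h.cd t h11).1) (lt_irrefl _)
  · exact absurd h7 (not_lt.mpr (le_of_eq (h.cf t h11)))

/-- Points fixed by `g` are fixed by everything. -/
theorem step2 (h : Sys x y c e g b Y l) {t : S} (hg : g t = t) :
    x t = t ∧ y t = t ∧ c t = t ∧ e t = t := by
  have hx : x t = t := by
    rcases lt_trichotomy (x t) t with h1 | h1 | h1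
    · exact (step2u (S := Sᵒᵈ) h.dual (t := t) hg h1).elim
    · exact h1
    · exact (step2u h hg h1).elim
  have he : e t = t := by
    have h1 := h.gf t hg
    have : x (e t) = x t := by rw [h1, hx]
    exact x.injective this
  have hy : y t = t := by
    have h1 := h.yl t
    rw [h.ef t he, hg] at h1
    exact h1
  have hc : c t = t := by
    have h1 := h.xf t hx
    rwa [hg] at h1
  exact ⟨hx, hy, hc, he⟩

/-- The component of a point moved up by `g`, packaged. -/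
structure Comp (x y c e g : S ≃o S) (J : Set S) : Prop where
  conv : ∀ u ∈ J, ∀ w ∈ J, ∀ v, u ≤ v → v ≤ w → v ∈ J
  mx : ∀ v, x v ∈ J ↔ v ∈ J
  my : ∀ v, y v ∈ J ↔ v ∈ J
  mc : ∀ v, c v ∈ J ↔ v ∈ J
  me : ∀ v, e v ∈ J ↔ v ∈ J
  mg : ∀ v, g v ∈ J ↔ v ∈ J
  up : ∀ v ∈ J, v < g v

theorem exists_comp (h : Sys x y c e g b Y l) {s : S} (hs : s < g s) :
    ∃ J : Set S, s ∈ J ∧ Comp x y c e g J := by
  set A : Set S := {f | f ≤ s ∧ g f = f} with hA
  set B : Set S := {f | s ≤ f ∧ g f = f} with hB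
  set α := sSup A with hα
  set β := sInf B with hβ
  have gα : g α = α := by
    apply le_antisymm
    · rw [hα, g.map_sSup]
      refine iSup₂_le fun v hv => ?_
      rw [hv.2]; exact le_sSup hv
    · refine sSup_le fun v hv => ?_
      rw [← hv.2]; exact (g.le_iff_le).mpr (le_sSup hv)
  have gβ : g β = β := by
    apply le_antisymm
    · refine le_sInf fun v hv => ?_
      rw [← hv.2]; exact (g.le_iff_le).mpr (sInf_le hv)
    · rw [hβ, g.map_sInf]
      refine le_iInf₂ fun v hv => ?_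
      rw [hv.2]; exact sInf_le hv
  have hsg : g s ≠ s := ne_of_gt hs
  have hαs : α < s := by
    refine lt_of_le_of_ne (sSup_le fun v hv => hv.1) ?_
    intro e; rw [e] at gα; exact hsg gα
  have hsβ : s < β := by
    refine lt_of_le_of_ne (le_sInf fun v hv => hv.1) ?_
    intro e; rw [← e] at gβ; exact hsg gβ
  obtain ⟨xα, yα, cα, eα⟩ := step2 h gα
  obtain ⟨xβ, yβ, cβ, eβ⟩ := step2 h gβ
  have stab : ∀ f : S ≃o S, f α = α → f β = β → ∀ v, f v ∈ Set.Ioo α β ↔ v ∈ Set.Ioo α β := by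
    intro f h1 h2 v
    rw [Set.mem_Ioo, Set.mem_Ioo]
    conv_lhs => rw [← h1, ← h2, h1]
    constructor
    · rintro ⟨k1, k2⟩
      refine ⟨?_, (f.lt_iff_lt).mp k2⟩
      rw [← f.lt_iff_lt, h1]; exact k1
    · rintro ⟨k1, k2⟩
      refine ⟨?_, (f.lt_iff_lt).mpr k2⟩
      rw [← f.lt_iff_lt, h1] at k1; exact k1
  refine ⟨Set.Ioo α β, ⟨hαs, hsβ⟩, ?_, stab x xα xβ, stab y yα yβ, stab c cα cβ, stab e eα eβ,
    stab g gα gβ, ?_⟩
  · intro u hu w hw v h1 h2
    exact ⟨lt_of_lt_of_le hu.1 h1, lt_of_le_of_lt h2 hw.2⟩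
  · intro v hv
    by_contra hcon
    rw [not_lt] at hcon
    rcases le_total v s with h3 | h3
    · obtain ⟨t, t1, t2, t3⟩ := ivt g h3 hcon hs
      exact absurd (le_sSup (show t ∈ A from ⟨t2.le, t3⟩))
        (not_le.mpr (lt_of_lt_of_le hv.1 t1))
    · obtain ⟨t, t1, t2, t3⟩ := ivt' g h3 hcon hs
      exact absurd (sInf_le (show t ∈ B from ⟨t1.le, t3⟩))
        (not_le.mpr (lt_of_le_of_lt t2 hv.2))

/-- Without fixed points in `J`, the direction of the motion is constant. -/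
theorem dir {J : Set S} (conv : ∀ u ∈ J, ∀ w ∈ J, ∀ v, u ≤ v → v ≤ w → v ∈ J) (f : S ≃o S)
    (hf : ∀ v ∈ J, f v ≠ v) : (∀ v ∈ J, v < f v) ∨ (∀ v ∈ J, f v < v) := by
  by_contra hcon
  rw [not_or] at hcon
  obtain ⟨h1, h2⟩ := hcon
  push Not at h1 h2
  obtain ⟨u, hu, hu'⟩ := h1
  obtain ⟨w, hw, hw'⟩ := h2
  have hw'' : w < f w := lt_of_le_of_ne hw' (hf w hw).symm
  rcases le_total u w with h3 | h3
  · obtain ⟨t, t1, t2, t3⟩ := ivt f h3 hu' hw''
    exact hf t (conv u hu w hw t t1 t2.le) t3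
  · obtain ⟨t, t1, t2, t3⟩ := ivt' f h3 hu' hw''
    exact hf t (conv w hw u hu t t1.le t2) t3

/-- The structure of the action if `g` moves a point up. -/
theorem step1 (h : Sys x y c e g b Y l) {s : S} (hs : s < g s) :
    ∃ J : Set S, s ∈ J ∧ Comp x y c e g J ∧ (∀ v ∈ J, v < x v) ∧ (∀ v ∈ J, v < e v) ∧
      (∀ v ∈ J, e (g v) ≤ c (l v)) ∧ (∀ v ∈ J, e v ≤ b v) := by
  obtain ⟨J, sJ, hJ⟩ := exists_comp h hs
  refine ⟨J, sJ, hJ, ?_⟩
  -- `e` has no fixed point
  have ne : ∀ t ∈ J, e t ≠ t := by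
    intro t tJ et
    have h1 := hJ.up t tJ
    have h2 : y t = g t := by rw [← h.yl t, h.ef t et]
    have h3 : t < x t := by
      have := h.gu t h1
      rw [et] at this
      exact lt_of_lt_of_le h1 this
    have h4 : c t < t := lt_of_lt_of_le ((c.lt_iff_lt).mpr h1) (h.xu t h3)
    have h5 := (h.cd t h4).1
    rw [h2, h.bg] at h5
    have h6 : g t < g (x t) := (g.lt_iff_lt).mpr h3
    exact absurd ((h1.trans h6).trans h5) (lt_irrefl _)
  have bup : (∀ v ∈ J, v < x v) → ∀ v ∈ J, v < b v := by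
    intro hx v hv
    have h1 : g (g.symm v) = v := g.apply_symm_apply v
    have h2 : g.symm v ∈ J := by rw [← hJ.mg, h1]; exact hv
    have h3 : g (g.symm v) < g (x (g.symm v)) := (g.lt_iff_lt).mpr (hx _ h2)
    rwa [← h.bg, h1] at h3
  rcases dir hJ.conv e ne with eup | edn
  swap
  · -- `e` moves down
    exfalso
    have yup : ∀ v ∈ J, v < y v := by
      intro v hv
      have h1 := h.ed v (edn v hv)
      have h2 : y (l v) < y v := (y.lt_iff_lt).mpr (lt_of_le_of_lt h1 (edn v hv))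
      rw [h.yl] at h2
      exact (hJ.up v hv).trans h2
    have xup : ∀ v ∈ J, v < x v := by
      intro v hv
      have h1 := h.gu v (hJ.up v hv)
      exact lt_of_lt_of_le (hJ.up v hv) (h1.trans ((x.le_iff_le).mpr (edn v hv).le))
    have h1 : c s < s := lt_of_lt_of_le ((c.lt_iff_lt).mpr hs) (h.xu s (xup s sJ))
    have h2 := (h.cd s h1).1
    have h3 := bup xup (y s) ((hJ.my s).mpr sJ)
    exact absurd (((yup s sJ).trans h3).trans h2) (lt_irrefl _)
  -- `e` moves up; `y ≤ x`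
  have yx : ∀ v ∈ J, y v ≤ x v := by
    intro v hv
    have h1 : e (e.symm v) = v := e.apply_symm_apply v
    have h2 : e.symm v ∈ J := by rw [← hJ.me, h1]; exact hv
    have h3 := h.eu _ (eup _ h2)
    have h4 : y (e (e.symm v)) ≤ y (l (e.symm v)) := (y.le_iff_le).mpr h3
    rw [h.yl, h1] at h4
    have h5 := h.gu _ (hJ.up _ h2)
    rw [h1] at h5
    exact h4.trans h5
  -- Lemma K
  have K : ∀ t ∈ J, c t < t → y t < t → c t < x (c t) := by
    intro t tJ ct yt
    obtain ⟨r, hr⟩ : ∃ r, g r = y t := ⟨g.symm (y t), g.apply_symm_apply _⟩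
    have rJ : r ∈ J := by rw [← hJ.mg, hr, hJ.my]; exact tJ
    have h1 : x (e (y t)) ≤ x (c t) := (x.le_iff_le).mpr (h.yd t yt)
    have h2 : x (e (y t)) = g (x (e r)) := by rw [← hr, h.gxe]
    have h3 : g (x r) < g (x (e r)) := (g.lt_iff_lt).mpr ((x.lt_iff_lt).mpr (eup r rJ))
    have h4 : g (x r) = b (y t) := by rw [← hr, h.bg]
    have h5 := (h.cd t ct).2
    calc c t ≤ b (y t) := h5
      _ = g (x r) := h4.symm
      _ < g (x (e r)) := h3
      _ = x (e (y t)) := h2.symm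
      _ ≤ x (c t) := h1
  -- `x` has no fixed point
  have nx : ∀ t ∈ J, x t ≠ t := by
    intro t tJ xt
    have tg := hJ.up t tJ
    have h1 : c (g t) = t := h.xf t xt
    have h2 : c t < t := by
      have := (c.lt_iff_lt).mpr tg; rwa [h1] at this
    have noy : ∀ z ∈ J, t ≤ z → z ≤ g t → y z ≠ z := by
      intro z zJ tz zg yz
      have h3 := h.yf z yz
      have h4 : c z ≤ t := by
        have := (c.le_iff_le).mpr zg; rwa [h1] at this
      have h5 := eup z zJ
      rw [← h3] at h5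
      exact absurd (lt_of_lt_of_le h5 (h4.trans tz)) (lt_irrefl _)
    have gtJ : g t ∈ J := (hJ.mg t).mpr tJ
    have yt : y t ≤ t := by have := yx t tJ; rwa [xt] at this
    have yg : y (g t) < g t := by
      by_contra hcon
      rw [not_lt] at hcon
      have h6 : g t < y (g t) := lt_of_le_of_ne hcon (noy _ gtJ tg.le le_rfl).symm
      obtain ⟨z, z1, z2, z3⟩ := ivt y tg.le yt h6
      exact noy z (hJ.conv t tJ _ gtJ z z1 z2.le) z1 z2.le z3
    have := K (g t) gtJ (by rw [h1]; exact tg) yg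
    rw [h1, xt] at this
    exact lt_irrefl _ this
  rcases dir hJ.conv x nx with xup | xdn
  swap
  · exfalso
    have ydn : ∀ v ∈ J, y v < v := fun v hv => lt_of_le_of_lt (yx v hv) (xdn v hv)
    have h0 : ∀ v ∈ J, Y v < v := by
      intro v hv
      have h1 : c (c.symm v) = v := c.apply_symm_apply v
      have h2 : c.symm v ∈ J := by rw [← hJ.mc, h1]; exact hv
      have h3 : c (y (c.symm v)) < c (c.symm v) := (c.lt_iff_lt).mpr (ydn _ h2)
      rwa [← h.Yc, h1] at h3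
    have h1 : b (y s) < s := by
      rw [h.h]
      exact ((x.lt_iff_lt).mpr (h0 s sJ)).trans (xdn s sJ)
    have h2 : c s < s := by
      rcases lt_trichotomy (c s) s with h3 | h3 | h3
      · exact h3
      · exact absurd (h.cf s h3) (ne_of_lt h1)
      · exact absurd ((h.cu s h3).1.trans h1) (lt_irrefl _)
    have h3 := K s sJ h2 (ydn s sJ)
    exact absurd (h3.trans (xdn _ ((hJ.mc s).mpr sJ))) (lt_irrefl _)
  -- `x` moves up
  have cdn : ∀ v ∈ J, c v < v := fun v hv =>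
    lt_of_lt_of_le ((c.lt_iff_lt).mpr (hJ.up v hv)) (h.xu v (xup v hv))
  have YJ : ∀ v ∈ J, Y v ∈ J := by
    intro v hv
    have h1 : c (c.symm v) = v := c.apply_symm_apply v
    have h2 : c.symm v ∈ J := by rw [← hJ.mc, h1]; exact hv
    rw [← h1, h.Yc, hJ.mc, hJ.my]; exact h2
  have ydn : ∀ v ∈ J, y v < v := by
    intro v hv
    have cJ : c v ∈ J := (hJ.mc v).mpr hv
    have h1 := (h.cd (c v) (cdn _ cJ)).1
    rw [h.h] at h1
    have h2 : Y (c v) < c v := (xup _ (YJ _ cJ)).trans h1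
    rw [h.Yc] at h2
    exact (c.lt_iff_lt).mp h2
  have lJ : ∀ v ∈ J, l v ∈ J := by
    intro v hv
    rw [← hJ.my, h.yl, hJ.mg]; exact hv
  refine ⟨xup, eup, ?_, ?_⟩
  · intro v hv
    have h1 := h.yd (l v) (ydn _ (lJ v hv))
    rwa [h.yl] at h1
  · intro v hv
    -- `v = g (e u)`
    obtain ⟨w, hw⟩ : ∃ w, g w = v := ⟨g.symm v, g.apply_symm_apply _⟩
    obtain ⟨u, hu⟩ : ∃ u, e u = w := ⟨e.symm w, e.apply_symm_apply _⟩
    have wJ : w ∈ J := by rw [← hJ.mg, hw]; exact hv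
    have uJ : u ∈ J := by rw [← hJ.me, hu]; exact wJ
    have vJ : e (l u) ∈ J := (hJ.me _).mpr (lJ u uJ)
    have h1 := (h.cd _ (cdn _ vJ)).2
    have h2 := h.yd _ (ydn _ vJ)
    rw [h.h, h.Ye, h.yl] at h1
    rw [h.el, h.yl] at h2
    rw [h.el] at h1
    have h3 := h2.trans h1
    rwa [← h.gxe, ← h.bg, hu, hw] at h3

end

end Pool.Agent.TH49.FC
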