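import Mathlib

set_option autoImplicit false

/-!
# Farey pairs around an interval
-/

namespace Pool.Agent.TH49.FC

theorem farey_aux {r s : ℚ} (hrs : r < s) (N : ℕ) (hN : 1 < N * (s - r)) :
    ∀ n p q p' q' : ℕ, N + 1 ≤ q + q' + n → 1 ≤ q → 1 ≤ q' → p ≤ q → p' ≤ q' →
      p' * q = p * q' + 1 → (p : ℚ) ≤ r * q → s * q' ≤ p' →
      ∃ p q p' q' : ℕ, 1 ≤ q ∧ 1 ≤ q' ∧ p ≤ q ∧ p' ≤ q' ∧ p' * q = p * q' + 1 ∧
        (p : ℚ) ≤ r * q ∧ s * q' ≤ p' ∧ r * (q + q') < p + p' ∧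
        (p : ℚ) + p' < s * (q + q') := by
  intro n
  induction n with
  | zero =>
    intro p q p' q' hn hq hq' _ _ hd h1 h2
    exfalso
    have hd' : (p' : ℚ) * q = p * q' + 1 := by exact_mod_cast hd
    have hq1 : (1 : ℚ) ≤ q := by exact_mod_cast hq
    have hq2 : (1 : ℚ) ≤ q' := by exact_mod_cast hq'
    have h3 : s * q' * q ≤ p' * q := mul_le_mul_of_nonneg_right h2 (by linarith)
    have h4 : (p : ℚ) * q' ≤ r * q * q' := mul_le_mul_of_nonneg_right h1 (by linarith)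
    have h5 : (s - r) * (q * q') ≤ 1 := by nlinarith
    have h6 : (q : ℚ) + q' - 1 ≤ q * q' := by nlinarith
    have h7 : (N : ℚ) ≤ q + q' - 1 := by
      have : N + 1 ≤ q + q' := by omega
      have : (N : ℚ) + 1 ≤ q + q' := by exact_mod_cast this
      linarith
    have h8 : (N : ℚ) * (s - r) ≤ (s - r) * (q * q') := by
      rw [mul_comm]
      exact mul_le_mul_of_nonneg_left (h7.trans h6) (by linarith)
    linarith
  | succ n ih =>
    intro p q p' q' hn hq hq' hp hp' hd h1 h2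
    by_cases h3 : r * (q + q') < p + p'
    · by_cases h4 : (p : ℚ) + p' < s * (q + q')
      · exact ⟨p, q, p', q', hq, hq', hp, hp', hd, h1, h2, h3, h4⟩
      · rw [not_lt] at h4
        refine ih p q (p + p') (q + q') (by omega) hq (by omega) hp (by omega) ?_ h1 ?_
        · rw [add_mul, mul_add, hd]; ring
        · push_cast; exact h4
    · rw [not_lt] at h3
      refine ih (p + p') (q + q') p' q' (by omega) (by omega) hq' (by omega) hp' ?_ ?_ h2
      · rw [mul_add, add_mul, hd]; ring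
      · push_cast; exact h3

theorem farey {r s : ℚ} (h0 : 0 ≤ r) (hs : s ≤ 1) (hrs : r < s) :
    ∃ p q p' q' : ℕ, 1 ≤ q ∧ 1 ≤ q' ∧ p ≤ q ∧ p' ≤ q' ∧ p' * q = p * q' + 1 ∧
        (p : ℚ) ≤ r * q ∧ s * q' ≤ p' ∧ r * (q + q') < p + p' ∧
        (p : ℚ) + p' < s * (q + q') := by
  obtain ⟨N, hN⟩ := exists_nat_gt (1 / (s - r))
  have hpos : 0 < s - r := by linarith
  rw [div_lt_iff₀ hpos] at hN
  refine farey_aux hrs N hN (N + 1) 0 1 1 1 (by omega) le_rfl le_rfl (by omega) le_rfl (by omega)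
    (by simpa using h0) (by simpa using hs)

/-- Farey pairs around `(r, s)` if there is no integer in this interval. -/
theorem farey' {r s : ℚ} (h0 : 0 ≤ r) (hrs : r < s) (hint : ∀ n : ℤ, r < n → s ≤ n) :
    ∃ m p q p' q' : ℕ, 1 ≤ q ∧ 1 ≤ q' ∧ p ≤ q ∧ p' ≤ q' ∧ p' * q = p * q' + 1 ∧
        ((m * q + p : ℕ) : ℚ) ≤ r * q ∧ s * q' ≤ ((m * q' + p' : ℕ) : ℚ) ∧
        r * (q + q') < m * (q + q') + (p + p') ∧
        (m : ℚ) * (q + q') + (p + p') < s * (q + q') := by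
  set m := ⌊r⌋₊ with hm
  have h1 : (m : ℚ) ≤ r := Nat.floor_le h0
  have h2 : r < m + 1 := Nat.lt_floor_add_one r
  have h3 : s ≤ m + 1 := by
    have := hint (m + 1) (by push_cast; exact h2)
    push_cast at this; exact this
  obtain ⟨p, q, p', q', a1, a2, a3, a4, a5, a6, a7, a8, a9⟩ :=
    farey (r := r - m) (s := s - m) (by linarith) (by linarith) (by linarith)
  refine ⟨m, p, q, p', q', a1, a2, a3, a4, a5, ?_, ?_, ?_, ?_⟩
  · push_cast; nlinarith
  · push_cast; nlinarith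
  · nlinarith
  · nlinarith

end Pool.Agent.TH49.FC
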