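import Pool.Agent.TH49.FC.Dyn
import Pool.Agent.TH49.FC.Core
import Pool.Agent.TH49.FC.Farey
import Pool.Agent.W705.BorrGroup

set_option autoImplicit false

/-!
# Left-ordered groups and slopes
-/

namespace Pool.Agent.TH49.FC

open Pool.Agent.W705.Borr (act act_mul act_one eq_one_of_act)

section zpow
variable {S : Type*} [CompleteLinearOrder S] {G : Type*} [Group G]

/-- An action by order automorphisms. -/
structure IsAct (ρ : G → (S ≃o S)) : Prop where
  mul : ∀ a b v, ρ (a * b) v = ρ a (ρ b v)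
  one : ∀ v, ρ 1 v = v

variable {ρ : G → (S ≃o S)}

theorem IsAct.inv (h : IsAct ρ) (a : G) (v : S) : ρ a⁻¹ (ρ a v) = v := by
  rw [← h.mul, inv_mul_cancel, h.one]

theorem IsAct.inv' (h : IsAct ρ) (a : G) (v : S) : ρ a (ρ a⁻¹ v) = v := by
  rw [← h.mul, mul_inv_cancel, h.one]

theorem IsAct.pow_lt (h : IsAct ρ) {u : G} {v : S} (hv : v < ρ u v) :
    ∀ n : ℕ, 1 ≤ n → v < ρ (u ^ n) v := by
  intro n hn
  induction n, hn using Nat.le_induction with
  | base => simpa using hv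
  | succ n _ ih =>
    rw [pow_succ, h.mul]
    exact ih.trans ((ρ (u ^ n)).lt_iff_lt.mpr hv)

theorem IsAct.pow_gt (h : IsAct ρ) {u : G} {v : S} (hv : ρ u v < v) :
    ∀ n : ℕ, 1 ≤ n → ρ (u ^ n) v < v := by
  intro n hn
  induction n, hn using Nat.le_induction with
  | base => simpa using hv
  | succ n _ ih =>
    rw [pow_succ, h.mul]
    exact ((ρ (u ^ n)).lt_iff_lt.mpr hv).trans ih

theorem IsAct.inv_gt (h : IsAct ρ) {u : G} {v : S} (hv : v < ρ u v) : ρ u⁻¹ v < v := by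
  rw [← (ρ u).lt_iff_lt, h.inv']; exact hv

theorem IsAct.inv_lt (h : IsAct ρ) {u : G} {v : S} (hv : ρ u v < v) : v < ρ u⁻¹ v := by
  rw [← (ρ u).lt_iff_lt, h.inv']; exact hv

theorem IsAct.zpow_pos (h : IsAct ρ) {u : G} {v : S} (hv : v < ρ u v) {n : ℤ} (hn : 0 < n) :
    v < ρ (u ^ n) v := by
  obtain ⟨m, rfl⟩ := Int.eq_ofNat_of_zero_le hn.le
  rw [zpow_natCast]
  exact h.pow_lt hv m (by omega)

theorem IsAct.zpow_neg (h : IsAct ρ) {u : G} {v : S} (hv : v < ρ u v) {n : ℤ} (hn : n < 0) :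
    ρ (u ^ n) v < v := by
  obtain ⟨m, hm⟩ := Int.eq_ofNat_of_zero_le (show 0 ≤ -n by omega)
  have h1 : u ^ n = u⁻¹ ^ m := by
    rw [show n = -(m : ℤ) by omega, _root_.zpow_neg, zpow_natCast, inv_pow]
  rw [h1]
  exact h.pow_gt (h.inv_gt hv) m (by omega)

theorem IsAct.zpow_pos' (h : IsAct ρ) {u : G} {v : S} (hv : ρ u v < v) {n : ℤ} (hn : 0 < n) :
    ρ (u ^ n) v < v := by
  obtain ⟨m, rfl⟩ := Int.eq_ofNat_of_zero_le hn.le
  rw [zpow_natCast]
  exact h.pow_gt hv m (by omega)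

theorem IsAct.zpow_neg' (h : IsAct ρ) {u : G} {v : S} (hv : ρ u v < v) {n : ℤ} (hn : n < 0) :
    v < ρ (u ^ n) v := by
  obtain ⟨m, hm⟩ := Int.eq_ofNat_of_zero_le (show 0 ≤ -n by omega)
  have h1 : u ^ n = u⁻¹ ^ m := by
    rw [show n = -(m : ℤ) by omega, _root_.zpow_neg, zpow_natCast, inv_pow]
  rw [h1]
  exact h.pow_lt (h.inv_lt hv) m (by omega)

/-- `w` is a nonpositive power of `u`. -/
structure Non (ρ : G → (S ≃o S)) (u w : G) : Prop where
  up : ∀ v, v < ρ u v → ρ w v ≤ v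
  dn : ∀ v, ρ u v < v → v ≤ ρ w v

/-- `w` is a nonnegative power of `u`. -/
structure Pos (ρ : G → (S ≃o S)) (u w : G) : Prop where
  up : ∀ v, v < ρ u v → v ≤ ρ w v
  dn : ∀ v, ρ u v < v → ρ w v ≤ v

/-- `w` is a positive power of `u`. -/
structure SPos (ρ : G → (S ≃o S)) (u w : G) : Prop where
  up : ∀ v, v < ρ u v → v < ρ w v
  dn : ∀ v, ρ u v < v → ρ w v < v

theorem IsAct.non (h : IsAct ρ) {u w : G} {k q : ℤ} (hq : 1 ≤ q) (hw : w ^ q = u ^ k)
    (hk : k ≤ 0) : Non ρ u w := by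
  refine ⟨fun v hv => ?_, fun v hv => ?_⟩
  · by_contra hcon
    rw [not_le] at hcon
    have h1 := h.zpow_pos hcon (show 0 < q by omega)
    rw [hw] at h1
    rcases lt_or_eq_of_le hk with h2 | h2
    · exact absurd (h1.trans (h.zpow_neg hv h2)) (lt_irrefl _)
    · rw [h2, zpow_zero, h.one] at h1; exact lt_irrefl _ h1
  · by_contra hcon
    rw [not_le] at hcon
    have h1 := h.zpow_pos' hcon (show 0 < q by omega)
    rw [hw] at h1
    rcases lt_or_eq_of_le hk with h2 | h2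
    · exact absurd (h1.trans (h.zpow_neg' hv h2)) (lt_irrefl _)
    · rw [h2, zpow_zero, h.one] at h1; exact lt_irrefl _ h1

theorem IsAct.pos (h : IsAct ρ) {u w : G} {k q : ℤ} (hq : 1 ≤ q) (hw : w ^ q = u ^ k)
    (hk : 0 ≤ k) : Pos ρ u w := by
  refine ⟨fun v hv => ?_, fun v hv => ?_⟩
  · by_contra hcon
    rw [not_le] at hcon
    have h1 := h.zpow_pos' hcon (show 0 < q by omega)
    rw [hw] at h1
    rcases lt_or_eq_of_le hk with h2 | h2
    · exact absurd (h1.trans (h.zpow_pos hv h2)) (lt_irrefl _)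
    · rw [← h2, zpow_zero, h.one] at h1; exact lt_irrefl _ h1
  · by_contra hcon
    rw [not_le] at hcon
    have h1 := h.zpow_pos hcon (show 0 < q by omega)
    rw [hw] at h1
    rcases lt_or_eq_of_le hk with h2 | h2
    · exact absurd (h1.trans (h.zpow_pos' hv h2)) (lt_irrefl _)
    · rw [← h2, zpow_zero, h.one] at h1; exact lt_irrefl _ h1

theorem IsAct.fix_zpow (h : IsAct ρ) {u : G} {v : S} (hv : ρ u v = v) (n : ℤ) :
    ρ (u ^ n) v = v := by
  have hp : ∀ (a : G), ρ a v = v → ∀ m : ℕ, ρ (a ^ m) v = v := by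
    intro a ha m
    induction m with
    | zero => rw [pow_zero, h.one]
    | succ m ih => rw [pow_succ, h.mul, ha, ih]
  obtain ⟨m, rfl | rfl⟩ := n.eq_nat_or_neg
  · rw [zpow_natCast]; exact hp u hv m
  · rw [_root_.zpow_neg, zpow_natCast, ← inv_pow]
    refine hp _ ?_ m
    rw [← (ρ u).injective.eq_iff, h.inv', hv]

theorem IsAct.fix (h : IsAct ρ) {u w : G} {k q : ℤ} (hq : 1 ≤ q) (hw : w ^ q = u ^ k)
    {v : S} (hv : ρ u v = v) : ρ w v = v := by
  have h1 : ρ (w ^ q) v = v := by rw [hw]; exact h.fix_zpow hv k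
  rcases lt_trichotomy (ρ w v) v with h2 | h2 | h2
  · exact absurd h1 (ne_of_lt (h.zpow_pos' h2 (by omega)))
  · exact h2
  · exact absurd h1 (ne_of_gt (h.zpow_pos h2 (by omega)))

theorem IsAct.spos (h : IsAct ρ) {u w : G} {k q : ℤ} (hq : 1 ≤ q) (hw : w ^ q = u ^ k)
    (hk : 0 < k) : SPos ρ u w := by
  have hp := h.pos hq hw hk.le
  refine ⟨fun v hv => lt_of_le_of_ne (hp.up v hv) ?_, fun v hv => lt_of_le_of_ne (hp.dn v hv) ?_⟩
  · intro e
    have h1 := h.zpow_pos hv hk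
    rw [← hw, h.fix_zpow e.symm q] at h1
    exact lt_irrefl _ h1
  · intro e
    have h1 := h.zpow_pos' hv hk
    rw [← hw, h.fix_zpow e q] at h1
    exact lt_irrefl _ h1

end zpow

/-- Multiplying the longitude by a power of the meridian. -/
theorem slope_pow {G : Type*} [Group G] {u w : G} (hc : u * w = w * u) {p q : ℤ}
    (h : u ^ p * w ^ q = 1) (m : ℤ) : (u ^ m * w) ^ q = u ^ (m * q - p) := by
  have hc' : Commute u w := hc
  rw [(hc'.zpow_left m).mul_zpow, ← zpow_mul, zpow_sub]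
  rw [← inv_eq_of_mul_eq_one_right h]

section grp
variable {H : Type*} [Group H]

/-- The relations of the surgery group of the five chain link. -/
structure Rel (x y c e g : H) (p q : Fin 5 → ℤ) : Prop where
  cx : x * (c * g) = c * g * x
  cc : c * (g * x * g⁻¹ * y) = g * x * g⁻¹ * y * c
  cy : y * (e⁻¹ * c) = e⁻¹ * c * y
  ce : e * (y⁻¹ * g) = y⁻¹ * g * e
  cg : g * (x * e) = x * e * g
  sx : x ^ (-p 0) * ((c * g)⁻¹) ^ q 0 = 1
  sc : c ^ p 1 * (g * x * g⁻¹ * y) ^ q 1 = 1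
  sy : y ^ p 2 * (e⁻¹ * c) ^ q 2 = 1
  se : e ^ p 3 * (y⁻¹ * g) ^ q 3 = 1
  sg : g ^ p 4 * (x * e) ^ q 4 = 1

/-- The region of slopes `p i / q i`. -/
structure Region (p q : Fin 5 → ℤ) : Prop where
  hq : ∀ i, 1 ≤ q i
  r0 : 0 ≤ p 0
  r1 : -q 1 ≤ p 1
  r1' : p 1 < 0
  r2 : -q 2 ≤ p 2
  r3 : p 3 ≤ -q 3
  r4 : p 4 ≤ -q 4
  r5 : ∀ P Q : ℤ, 1 ≤ Q → p 0 * Q < P * q 0 → P * q 3 < Q * (-q 3 - p 3) →
    2 ≤ Q ∧ -p 4 ≤ (2 * Q - 1) * q 4

theorem isAct [LinearOrder H] (hinv : ∀ a b c : H, a ≤ b ↔ c * a ≤ c * b) : IsAct (act hinv) :=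
  ⟨fun a b v => act_mul hinv a b v, fun v => act_one hinv v⟩

/-- The system of inequalities for an action of the surgery group. -/
theorem toSys {S : Type*} [CompleteLinearOrder S] {ρ : H → (S ≃o S)} (A : IsAct ρ)
    {x y c e g : H} {p q : Fin 5 → ℤ} (hr : Region p q) (h : Rel x y c e g p q) :
    Sys (ρ x) (ρ y) (ρ c) (ρ e) (ρ g) (ρ (g * x * g⁻¹)) (ρ (c * y * c⁻¹)) (ρ (y⁻¹ * g)) := by
  obtain ⟨hq, r0, r1, r1', r2, r3, r4, r5⟩ := hr
  -- powers
  have sx : (c * g) ^ q 0 = x ^ (0 * q 0 - p 0) := by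
    have h1 := h.sx
    rw [inv_zpow, mul_inv_eq_one] at h1
    rw [← h1]; congr 1; ring
  have px := slope_pow h.cx (p := p 0) (q := q 0) (by rw [sx, ← zpow_add]; simp)
  have pc := slope_pow h.cc h.sc
  have py := slope_pow h.cy h.sy
  have pe := slope_pow h.ce h.se
  have pg := slope_pow h.cg h.sg
  have mul : ∀ a b v, ρ a (ρ b v) = ρ (a * b) v := fun a b v => (A.mul a b v).symm
  have le_of_inv : ∀ (a b : H) v, ρ (a⁻¹ * b) v ≤ v → ρ b v ≤ ρ a v := by
    intro a b v hv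
    have h1 := ((ρ a).le_iff_le).mpr hv
    rwa [mul, mul_inv_cancel_left] at h1
  have ge_of_inv : ∀ (a b : H) v, v ≤ ρ (a⁻¹ * b) v → ρ a v ≤ ρ b v := by
    intro a b v hv
    have h1 := ((ρ a).le_iff_le).mpr hv
    rwa [mul, mul_inv_cancel_left] at h1
  have X1 : Non ρ x (x ^ (0 : ℤ) * (c * g)) := A.non (hq 0) (px 0) (by omega)
  have C1 : SPos ρ c (c ^ (0 : ℤ) * (g * x * g⁻¹ * y)) :=
    A.spos (hq 1) (pc 0) (by omega)
  have C2 : Non ρ c (c ^ (-1 : ℤ) * (g * x * g⁻¹ * y)) :=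
    A.non (hq 1) (pc (-1)) (by omega)
  have Y1 : Non ρ y (y ^ (-1 : ℤ) * (e⁻¹ * c)) := A.non (hq 2) (py (-1)) (by omega)
  have E1 : Pos ρ e (e ^ (-1 : ℤ) * (y⁻¹ * g)) := A.pos (hq 3) (pe (-1)) (by omega)
  have G1 : Pos ρ g (g ^ (-1 : ℤ) * (x * e)) := A.pos (hq 4) (pg (-1)) (by omega)
  rw [zpow_zero, one_mul] at X1 C1
  rw [zpow_neg_one] at C2 Y1 E1 G1
  have hY : c * y * c⁻¹ = e * y * e⁻¹ := by
    have h1 := h.cy
    have h2 : c * y = e * y * e⁻¹ * c := by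
      calc c * y = e * (e⁻¹ * c * y) := by group
        _ = e * (y * (e⁻¹ * c)) := by rw [← h1]
        _ = _ := by group
    rw [h2]; group
  have hX : c * (g * x * g⁻¹) * c⁻¹ = x := by
    have h1 := h.cx
    have h2 : c * g * x = x * c * g := by rw [← h1]; group
    calc c * (g * x * g⁻¹) * c⁻¹ = (c * g * x) * g⁻¹ * c⁻¹ := by group
      _ = x := by rw [h2]; group
  have hh : g * x * g⁻¹ * y = x * (c * y * c⁻¹) := by
    have h1 := h.cc
    calc g * x * g⁻¹ * y = (g * x * g⁻¹ * y * c) * c⁻¹ := by group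
      _ = c * (g * x * g⁻¹ * y) * c⁻¹ := by rw [← h1]
      _ = (c * (g * x * g⁻¹) * c⁻¹) * (c * y * c⁻¹) := by group
      _ = x * (c * y * c⁻¹) := by rw [hX]
  constructor
  · intro v; rw [mul, mul]; congr 2; group
  · intro v; rw [mul, mul]; congr 2; group
  · intro v; rw [mul, mul, hY]; congr 2; group
  · intro v; rw [mul, mul, hh]
  · intro v; rw [mul]; congr 2; group
  · intro v; rw [mul, mul, h.ce]
  · intro v; rw [mul, mul, mul, mul]; congr 2
    exact (mul_assoc g x e).trans h.cg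
  · intro v hv; rw [mul]; exact X1.up v hv
  · intro v hv; rw [mul]; exact X1.dn v hv
  · intro v hv; rw [mul]; exact A.fix (hq 0) sx hv
  · intro v hv
    rw [mul]
    exact ⟨C1.up v hv, le_of_inv _ _ _ (C2.up v hv)⟩
  · intro v hv
    rw [mul]
    exact ⟨C1.dn v hv, ge_of_inv _ _ _ (C2.dn v hv)⟩
  · intro v hv; rw [mul]
    have := pc 0
    rw [zpow_zero, one_mul] at this
    exact A.fix (hq 1) this hv
  · intro v hv
    have h1 := le_of_inv _ _ _ (Y1.up v hv)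
    have h2 := ((ρ e).le_iff_le).mpr h1
    rwa [mul, mul_inv_cancel_left] at h2
  · intro v hv
    have h1 := ge_of_inv _ _ _ (Y1.dn v hv)
    have h2 := ((ρ e).le_iff_le).mpr h1
    rwa [mul e (e⁻¹ * c), mul_inv_cancel_left] at h2
  · intro v hv
    have := py 0
    rw [zpow_zero, one_mul] at this
    have h1 := A.fix (hq 2) this hv
    have h2 := congrArg (ρ e) h1
    rwa [mul, mul_inv_cancel_left] at h2
  · intro v hv
    exact ge_of_inv _ _ _ (E1.up v hv)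
  · intro v hv
    exact le_of_inv _ _ _ (E1.dn v hv)
  · intro v hv
    have := pe 0
    rw [zpow_zero, one_mul] at this
    exact A.fix (hq 3) this hv
  · intro v hv; rw [mul x e]; exact ge_of_inv _ _ _ (G1.up v hv)
  · intro v hv; rw [mul x e]; exact le_of_inv _ _ _ (G1.dn v hv)
  · intro v hv; rw [mul x e]
    have := pg 0
    rw [zpow_zero, one_mul] at this
    exact A.fix (hq 4) this hv

/-- `g` moves no point up. -/
theorem no_up {S : Type*} [CompleteLinearOrder S] {ρ : H → (S ≃o S)} (A : IsAct ρ)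
    {x y c e g : H} {p q : Fin 5 → ℤ} (hr : Region p q) (h : Rel x y c e g p q) (s : S) :
    ¬ s < ρ g s := by
  intro hs
  obtain ⟨J, sJ, hJ, xup, eup, hd, hX⟩ := step1 (toSys A hr h) hs
  -- the stabiliser of `J`
  let K : Subgroup H :=
    { carrier := {a | ∀ v, ρ a v ∈ J ↔ v ∈ J}
      mul_mem' := by
        intro a b ha hb v
        show ρ (a * b) v ∈ J ↔ v ∈ J
        rw [A.mul, ha, hb]
      one_mem' := by
        intro v
        rw [A.one]
      inv_mem' := by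
        intro a ha v
        have := ha (ρ a⁻¹ v)
        rw [A.inv'] at this
        exact this.symm }
  let xK : K := ⟨x, hJ.mx⟩
  let yK : K := ⟨y, hJ.my⟩
  let cK : K := ⟨c, hJ.mc⟩
  let eK : K := ⟨e, hJ.me⟩
  let gK : K := ⟨g, hJ.mg⟩
  let ρK : K → J → J := fun a v => ⟨ρ a.1 v.1, (a.2 v.1).mpr v.2⟩
  have AK : Act ρK := by
    refine ⟨?_, ?_, ?_⟩
    · intro a b t; exact Subtype.ext (A.mul a.1 b.1 t.1)
    · intro t; exact Subtype.ext (A.one t.1)
    · intro a u v huv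
      exact (ρ a.1).lt_iff_lt.mpr huv
  have : Nonempty J := ⟨⟨s, sJ⟩⟩
  have ltK : ∀ a b : K, (∀ v ∈ J, ρ a.1 v < ρ b.1 v) → Lt ρK a b := fun a b hab t => hab t.1 t.2
  have leK : ∀ a b : K, (∀ v ∈ J, ρ a.1 v ≤ ρ b.1 v) → Le ρK a b := fun a b hab t => hab t.1 t.2
  -- letters
  set X : K := gK * xK * gK⁻¹ with hXdef
  set χ : K := (gK * cK)⁻¹ with hχ
  set l : K := yK⁻¹ * gK with hl
  set ε : K := eK⁻¹ * l with hε
  have gup : Lt ρK 1 gK := ltK _ _ (fun v hv => by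
    have := hJ.up v hv
    show ρ 1 v < ρ g v
    rwa [A.one])
  have eup' : Lt ρK 1 eK := ltK _ _ (fun v hv => by
    have := eup v hv
    show ρ 1 v < ρ e v
    rwa [A.one])
  have xup' : Lt ρK 1 xK := ltK _ _ (fun v hv => by
    have := xup v hv
    show ρ 1 v < ρ x v
    rwa [A.one])
  have Xup : Lt ρK 1 X := by
    have := AK.lt_right gK⁻¹ (AK.lt_left gK xup')
    rwa [mul_one, mul_inv_cancel] at this
  have eX : Le ρK eK X := leK _ _ (fun v hv => hX v hv)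
  -- relations in `K`
  have cx : xK * (cK * gK) = cK * gK * xK := Subtype.ext h.cx
  have ce : eK * l = l * eK := Subtype.ext h.ce
  have cg : gK * (xK * eK) = xK * eK * gK := Subtype.ext h.cg
  have sx : xK ^ (-p 0) * ((cK * gK)⁻¹) ^ q 0 = 1 := Subtype.ext h.sx
  have se : eK ^ p 3 * l ^ q 3 = 1 := Subtype.ext h.se
  have sg : gK ^ p 4 * (xK * eK) ^ q 4 = 1 := Subtype.ext h.sg
  have cε : Commute eK ε := (Commute.refl eK).inv_right.mul_right ce
  have cχ : Commute X χ := by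
    have h1 : Commute xK (cK * gK)⁻¹ := (show Commute xK (cK * gK) from cx).inv_right
    have h2 : χ = gK * (cK * gK)⁻¹ * gK⁻¹ := by rw [hχ]; group
    rw [hXdef, h2]
    exact (Commute.conj_iff gK).mpr h1
  have sχ : χ ^ q 0 = X ^ p 0 := by
    have h1 : ((cK * gK)⁻¹) ^ q 0 = xK ^ p 0 := by
      rw [zpow_neg, inv_mul_eq_one] at sx
      exact sx.symm
    have h2 : χ = gK * (cK * gK)⁻¹ * gK⁻¹ := by rw [hχ]; group
    rw [h2, hXdef, conj_zpow, conj_zpow, h1]
  have sε : ε ^ q 3 = eK ^ (-q 3 - p 3) := by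
    have h1 : l ^ q 3 = eK ^ (-p 3) := by
      rw [zpow_neg]; exact (inv_eq_of_mul_eq_one_right se).symm
    have h2 : Commute eK⁻¹ l := (show Commute eK l from ce).inv_left
    rw [hε, h2.mul_zpow, h1, inv_zpow, ← zpow_neg, ← zpow_add]
    congr 1
  have sl : (xK * eK) ^ q 4 = gK ^ (-p 4) := by
    rw [zpow_neg]; exact (inv_eq_of_mul_eq_one_right sg).symm
  have d : Le ρK (χ * gK * eK * gK) (eK * ε) := by
    have h1 : Le ρK (eK * gK) (cK * l) := leK _ _ (fun v hv => by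
      show ρ (e * g) v ≤ ρ (c * (y⁻¹ * g)) v
      rw [A.mul, A.mul]
      exact hd v hv)
    have h2 := AK.le_left (χ * gK) h1
    refine ((Le.of_eq ?_).tr h2).tr (Le.of_eq ?_)
    · group
    · rw [hχ, hε]; group
  obtain ⟨hq, r0, r1, r1', r2, r3, r4, r5⟩ := hr
  have q0 : (0 : ℚ) < q 0 := by exact_mod_cast (show (0 : ℤ) < q 0 from by have := hq 0; omega)
  have q3 : (0 : ℚ) < q 3 := by exact_mod_cast (show (0 : ℤ) < q 3 from by have := hq 3; omega)
  rcases le_or_gt (((-q 3 - p 3 : ℤ) : ℚ) / q 3) ((p 0 : ℚ) / q 0) with hrs | hrs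
  · -- the case `s ≤ r`
    obtain ⟨m, hm⟩ := Int.eq_ofNat_of_zero_le (show 0 ≤ -q 3 - p 3 by omega)
    obtain ⟨k, hk⟩ := Int.eq_ofNat_of_zero_le (show 0 ≤ q 3 by have := hq 3; omega)
    have hk1 : 1 ≤ k := by have := hq 3; omega
    rw [div_le_div_iff₀ q3 q0] at hrs
    have hrs' : (-q 3 - p 3) * q 0 ≤ p 0 * q 3 := by exact_mod_cast hrs
    refine AK.contra_ge gup cε eX (m := m) (k := k) hk1 ?_ ?_ d
    · refine AK.ge_of_slope cχ Xup.le (hq 0) sχ m k ?_
      rw [← hm, ← hk]; exact hrs'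
    · refine AK.le_of_slope cε eup'.le (hq 3) sε m k ?_
      rw [← hm, ← hk]
  · obtain ⟨m, a, b, a', b', h1, h2, h3, h4, h5, h6, h7, h8, h9⟩ :=
      farey' (r := (p 0 : ℚ) / q 0) (s := ((-q 3 - p 3 : ℤ) : ℚ) / q 3)
        (div_nonneg (by exact_mod_cast r0) q0.le) hrs (by
          intro n hn
          by_contra hcon
          rw [not_le] at hcon
          rw [div_lt_iff₀ q0] at hn
          rw [lt_div_iff₀ q3] at hcon
          have := r5 n 1 le_rfl (by rw [mul_one]; exact_mod_cast hn)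
            (by rw [one_mul]; exact_mod_cast hcon)
          omega)
    rw [div_mul_eq_mul_div, div_lt_iff₀ q0] at h8
    rw [div_mul_eq_mul_div, lt_div_iff₀ q3] at h9
    rw [div_mul_eq_mul_div, le_div_iff₀ q0] at h6
    rw [div_mul_eq_mul_div, div_le_iff₀ q3] at h7
    have h8' : p 0 * ((b : ℤ) + b') < ((m : ℤ) * (b + b') + (a + a')) * q 0 := by
      exact_mod_cast h8
    have h9' : ((m : ℤ) * (b + b') + (a + a')) * q 3 < ((b : ℤ) + b') * (-q 3 - p 3) := by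
      rw [mul_comm ((b : ℤ) + b')]
      exact_mod_cast h9
    have h6' : ((m * b + a : ℕ) : ℤ) * q 0 ≤ p 0 * b := by exact_mod_cast h6
    have h7' : (-q 3 - p 3) * (b' : ℤ) ≤ ((m * b' + a' : ℕ) : ℤ) * q 3 := by exact_mod_cast h7
    obtain ⟨_, h10⟩ := r5 _ _ (by omega) h8' h9'
    refine AK.contra_lt' gup cχ cε eX m h3 h4 h5 ?_ ?_ d ?_
    · exact AK.ge_of_slope cχ Xup.le (hq 0) sχ _ _ h6'
    · exact AK.le_of_slope cε eup'.le (hq 3) sε _ _ h7'
    · -- `e g e ≤ X g e = g (x e) ≤ g ^ (2 Q)`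
      have k1 : Le ρK ((xK * eK) ^ 1) (gK ^ (2 * (b + b') - 1)) := by
        refine AK.le_of_slope (show Commute gK (xK * eK) from cg) gup.le (hq 4) sl _ _ ?_
        have : ((2 * (b + b') - 1 : ℕ) : ℤ) = 2 * ((b : ℤ) + b') - 1 := by omega
        rw [this]
        simpa using h10
      rw [pow_one] at k1
      have k2 := AK.le_right (gK * eK) eX
      have k3 := AK.le_left gK k1
      rw [← pow_succ'] at k3
      refine ((Le.of_eq ?_).tr k2).tr ((Le.of_eq ?_).tr (k3.tr (Le.of_eq ?_)))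
      · group
      · rw [hXdef]; group
      · congr 1; omega

theorem isAct_dual {S : Type*} [CompleteLinearOrder S] {ρ : H → (S ≃o S)} (A : IsAct ρ) :
    IsAct (S := Sᵒᵈ) (fun a => (ρ a).dual) :=
  ⟨fun a b v => A.mul a b v, fun v => A.one v⟩

theorem rel_trivial [LinearOrder H] (hinv : ∀ a b c : H, a ≤ b ↔ c * a ≤ c * b)
    {x y c e g : H} {p q : Fin 5 → ℤ} (hr : Region p q)
    (h : Rel x y c e g p q) : x = 1 ∧ y = 1 ∧ c = 1 ∧ e = 1 ∧ g = 1 := by
  have A := isAct hinv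
  have hg : ∀ v, act hinv g v = v := by
    intro v
    rcases lt_trichotomy (act hinv g v) v with h1 | h1 | h1
    · exact (no_up (isAct_dual A) hr h (OrderDual.toDual v) h1).elim
    · exact h1
    · exact (no_up A hr h v h1).elim
  have T := fun v => step2 (toSys A hr h) (hg v)
  exact ⟨eq_one_of_act hinv x fun v => (T v).1, eq_one_of_act hinv y fun v => (T v).2.1,
    eq_one_of_act hinv c fun v => (T v).2.2.1, eq_one_of_act hinv e fun v => (T v).2.2.2,
    eq_one_of_act hinv g hg⟩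

end grp

end Pool.Agent.TH49.FC
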